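import Pool.Agent.Helper39.Uct.Goals2

/-!
MP_d97caa_an, packet VAN: vanishing of invariant points and the Bessel estimate.
-/

open scoped ComplexOrder

namespace Pool.Agent.Helper89.Uct

open Pool.Agent.Helper39.Uct Fib

section

variable {Q : Type} [Group Q] {B : Type} [NonUnitalCStarAlgebra B] {G : Fib Q B}

/-- Null vectors. -/
def Nul (φ : G.Pt) (y : B) : Prop := φ (star y * y) = 0

theorem nul_left (h : PF G) {φ : G.Pt} {y : B} (hy : Nul φ y) (a : B) : φ (a * y) = 0 := by
  have h1 := h.cs φ (star a) y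
  unfold Nul at hy
  rw [star_star, hy, Complex.zero_re, mul_zero] at h1
  have h2 : ‖φ (a * y)‖ ^ 2 = 0 := le_antisymm h1 (sq_nonneg _)
  exact norm_eq_zero.1 (pow_eq_zero_iff (two_ne_zero)|>.1 h2)

theorem nul_star (h : PF G) {φ : G.Pt} {y : B} (hy : Nul φ y) (a : B) : φ (star y * a) = 0 := by
  have h1 := h.herm φ (star a * y)
  rw [nul_left h hy, star_zero, star_mul, star_star] at h1
  exact h1

theorem nul_mul (h : PF G) {φ : G.Pt} {y : B} (hy : Nul φ y) (a : B) : Nul φ (a * y) := by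
  unfold Nul
  rw [star_mul, mul_assoc]
  exact nul_star h hy _

theorem nul_val (h : PF G) {φ : G.Pt} {y : B} (hy : Nul φ y) : φ y = 0 := by
  obtain ⟨c, hc, hcn⟩ := φ.nz
  have h1 := h.mulL φ c hc y
  rw [nul_left h hy c] at h1
  rcases mul_eq_zero.1 h1.symm with h2 | h2
  · exact absurd h2 hcn
  · exact h2

theorem nul_add (h : PF G) {φ : G.Pt} {y z : B} (hy : Nul φ y) (hz : Nul φ z) :
    Nul φ (y + z) := by
  unfold Nul
  rw [star_add, add_mul, map_add, nul_star h hy, nul_star h hz, add_zero]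

theorem nul_smul (h : PF G) {φ : G.Pt} {y : B} (hy : Nul φ y) (c : ℂ) : Nul φ (c • y) := by
  unfold Nul
  rw [star_smul, smul_mul_assoc, map_smul, nul_star h hy, smul_zero]

theorem nul_neg (h : PF G) {φ : G.Pt} {y : B} (hy : Nul φ y) : Nul φ (-y) := by
  have := nul_smul h hy (-1)
  rwa [neg_smul, one_smul] at this

theorem eq_left (h : PF G) {φ : G.Pt} {y z : B} (hy : Nul φ (y - z)) (a : B) :
    φ (a * y) = φ (a * z) := by
  have := nul_left h hy a
  rw [mul_sub, map_sub] at this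
  exact sub_eq_zero.1 this

theorem eq_star (h : PF G) {φ : G.Pt} {y z : B} (hy : Nul φ (y - z)) (a : B) :
    φ (star y * a) = φ (star z * a) := by
  have := nul_star h hy a
  rw [star_sub, sub_mul, map_sub] at this
  exact sub_eq_zero.1 this

theorem eq_val (h : PF G) {φ : G.Pt} {y z : B} (hy : Nul φ (y - z)) : φ y = φ z := by
  have := nul_val h hy
  rw [map_sub] at this
  exact sub_eq_zero.1 this

theorem sq_mem {q : Q} {b : B} (hb : b ∈ G.fib q) : star b * b ∈ G.fib 1 := by
  have := G.mul_mem q⁻¹ q (star b) b (G.star_mem q b hb) hb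
  rwa [inv_mul_cancel] at this

theorem sq_mem' {q : Q} {b : B} (hb : b ∈ G.fib q) : b * star b ∈ G.fib 1 := by
  have := G.mul_mem q q⁻¹ b (star b) hb (G.star_mem q b hb)
  rwa [mul_inv_cancel] at this

theorem star_mem_one {c : B} (hc : c ∈ G.fib 1) : star c ∈ G.fib 1 := by
  have := G.star_mem 1 c hc
  rwa [inv_one] at this

theorem star_sq (h : PF G) (φ : G.Pt) (b : B) : star (φ (star b * b)) = φ (star b * b) := by
  have := h.herm φ (star b * b)
  rw [star_mul, star_star] at this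
  exact this.symm

/-- proportionality -/
theorem prop (h : PF G) {φ : G.Pt} {q : Q} {b b' : B} (hb : b ∈ G.fib q) (hb' : b' ∈ G.fib q)
    (hne : φ (star b * b) ≠ 0) :
    Nul φ (b' - (φ (star b * b') / φ (star b * b)) • b) := by
  have h1 := h.oned φ q b hb b' hb'
  have h2 := h.herm φ (star b * b')
  rw [star_mul, star_star] at h2
  have h3 := star_sq h φ b
  unfold Nul
  rw [star_sub, star_smul, sub_mul, mul_sub, mul_sub, smul_mul_assoc, smul_mul_assoc,
    mul_smul_comm, mul_smul_comm]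
  simp only [map_sub, map_smul, smul_eq_mul]
  rw [star_div₀, h3, ← h2]
  field_simp
  linear_combination -h1

theorem unit_ratio (h : PF G) {φ : G.Pt} {q : Q} {b b' : B} (hb : b ∈ G.fib q)
    (hb' : b' ∈ G.fib q) (hne : φ (star b * b) ≠ 0)
    (heq : φ (star b' * b') = φ (star b * b)) :
    ∃ ζ : ℂ, ζ * star ζ = 1 ∧ Nul φ (b' - ζ • b) := by
  refine ⟨_, ?_, prop h hb hb' hne⟩
  have h1 := h.oned φ q b hb b' hb'
  have h2 := h.herm φ (star b * b')
  rw [star_mul, star_star] at h2
  have h3 := star_sq h φ b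
  rw [star_div₀, h3, ← h2]
  rw [heq] at h1
  field_simp
  linear_combination h1

theorem norm_mul' {φ : G.Pt} {p q : Q} {a b : B} (hq : q ∈ G.St φ) (ha : a ∈ G.fib p)
    (hb : b ∈ G.fib q) :
    φ (star (a * b) * (a * b)) = φ (star a * a) * φ (star b * b) := by
  have := hq.2 b hb (star a * a) (sq_mem ha)
  rw [← this]
  congr 1
  rw [star_mul]
  simp only [mul_assoc]

theorem nul_right {φ : G.Pt} {p q : Q} {a b : B} (hq : q ∈ G.St φ) (ha : a ∈ G.fib p)
    (hb : b ∈ G.fib q) (hn : Nul φ a) : Nul φ (a * b) := by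
  unfold Nul at hn ⊢
  rw [norm_mul' hq ha hb, hn, zero_mul]

theorem pos_real (φ : G.Pt) (b : B) :
    φ (star b * b) = ((φ (star b * b)).re : ℂ) ∧ 0 ≤ (φ (star b * b)).re := by
  have h1 := φ.pos b
  rw [Complex.nonneg_iff] at h1
  refine ⟨?_, h1.1⟩
  apply Complex.ext
  · simp
  · rw [Complex.ofReal_im]
    exact h1.2.symm

theorem exists_unit {φ : G.Pt} {q : Q} (hq : q ∈ G.St φ) :
    ∃ a ∈ G.fib q, φ (star a * a) = 1 := by
  obtain ⟨⟨b, hb, hbn⟩, _⟩ := hq
  obtain ⟨h1, h2⟩ := pos_real φ b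
  set r := (φ (star b * b)).re with hr
  have hr0 : r ≠ 0 := by
    intro h0
    rw [h0] at h1
    exact hbn (by simpa using h1)
  have hrp : 0 < r := lt_of_le_of_ne h2 (Ne.symm hr0)
  refine ⟨(((Real.sqrt r)⁻¹ : ℝ) : ℂ) • b, (G.fib q).smul_mem _ hb, ?_⟩
  rw [star_smul, smul_mul_assoc, mul_smul_comm, map_smul, map_smul, h1, smul_eq_mul, smul_eq_mul]
  have h3 : star (((Real.sqrt r)⁻¹ : ℝ) : ℂ) = (((Real.sqrt r)⁻¹ : ℝ) : ℂ) :=
    Complex.conj_ofReal _
  rw [h3, ← Complex.ofReal_mul, ← Complex.ofReal_mul]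
  have h4 : (Real.sqrt r)⁻¹ * ((Real.sqrt r)⁻¹ * r) = 1 := by
    have h5 := Real.mul_self_sqrt h2
    have h6 : Real.sqrt r ≠ 0 := (Real.sqrt_pos.2 hrp).ne'
    field_simp
    rw [sq]
    exact h5.symm
  rw [h4, Complex.ofReal_one]

theorem star_unit (h : PF G) {φ : G.Pt} {q : Q} (hq : q ∈ G.St φ) {a : B} (ha : a ∈ G.fib q)
    (h1 : φ (star a * a) = 1) : φ (a * star a) = 1 := by
  have h2 := hq.2 a ha (a * star a) (sq_mem' ha)
  have h3 : star a * (a * star a) * a = (star a * a) * (star a * a) := by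
    simp only [mul_assoc]
  rw [h3, h.mulL φ _ (sq_mem ha), h1, mul_one, mul_one] at h2
  exact h2.symm

/-- part (d1) -/
theorem van1 (h : PF G) {ψ : G.Pt} {q : Q} (hq : q ∉ G.St ψ) {x : B} (hx : x ∈ G.fib q) :
    ψ x = 0 := by
  by_cases hn : ψ (star x * x) = 0
  · exact nul_val h hn
  · by_contra hψ
    apply hq
    obtain ⟨χ, hχ⟩ := h.move ψ q x hx hn
    have claim1 : ∀ c ∈ G.fib 1, ψ c = χ c := by
      intro c hc
      have hnul : Nul ψ (c * x - (χ c) • x) := by
        unfold Nul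
        have e1 := hχ (star c * c)
        have e2 := hχ (star c)
        have e3 := hχ c
        have e4 := χ.mult (star c) (star_mem_one hc) c hc
        have e5 := (h.herm χ c)
        rw [star_sub, star_smul, star_mul, sub_mul, mul_sub, mul_sub, smul_mul_assoc,
          smul_mul_assoc, mul_smul_comm, mul_smul_comm]
        simp only [map_sub, map_smul, smul_eq_mul]
        have k1 : star x * star c * (c * x) = star x * (star c * c) * x := by
          simp only [mul_assoc]
        have k2 : star x * (c * x) = star x * c * x := by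
          simp only [mul_assoc]
        rw [k1, k2, ← e1, ← e2, ← e3, ← e5]
        have e4' : χ (star c * c) = χ (star c) * χ c := e4
        rw [e4']
        ring
      have h1 := eq_val h hnul
      rw [h.mulL ψ c hc x, map_smul, smul_eq_mul] at h1
      exact mul_right_cancel₀ hψ h1
    refine ⟨⟨x, hx, hn⟩, ?_⟩
    intro b hb c hc
    set lam := ψ (star x * b) / ψ (star x * x) with hlam
    have hnul : Nul ψ (b - lam • x) := prop h hx hb hn
    have f1 : ψ (star b * c * b) = lam * (star lam * ψ (star x * c * x)) := by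
      rw [eq_left h hnul, mul_smul_comm, map_smul, smul_eq_mul, mul_assoc, eq_star h hnul,
        star_smul, smul_mul_assoc, map_smul, smul_eq_mul, mul_assoc (star x) c x]
    have f2 : ψ (star b * b) = lam * (star lam * ψ (star x * x)) := by
      rw [eq_left h hnul, mul_smul_comm, map_smul, smul_eq_mul, eq_star h hnul,
        star_smul, smul_mul_assoc, map_smul, smul_eq_mul]
    rw [f1, f2, ← hχ c, claim1 c hc]
    ring

/-- part (d2) -/
theorem van2 (h : PF G) {L : Subgroup Q} {ψ : G.Pt} (hL : ∀ l ∈ L, l ∈ G.St ψ)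
    (hinv : InvL G L ψ) {q : Q} (hq : q ∈ G.St ψ) (hc : ∀ l ∈ L, q * l = l * q)
    (hD : q ∉ G.DD ψ L) {x : B} (hx : x ∈ G.fib q) : ψ x = 0 := by
  by_cases hn : ψ (star x * x) = 0
  · exact nul_val h hn
  · have hex : ∃ l ∈ L, ¬ G.Cm ψ q l := by
      by_contra hno
      push Not at hno
      exact hD ⟨hq, hno⟩
    obtain ⟨l, hl, hCm⟩ := hex
    have hlS := hL l hl
    obtain ⟨a, ha, ha1⟩ := exists_unit hlS
    have hax : a * x ∈ G.fib (q * l) := by
      rw [hc l hl]
      exact G.mul_mem l q a x ha hx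
    have hxa : x * a ∈ G.fib (q * l) := G.mul_mem q l x a hx ha
    have n1 : ψ (star (a * x) * (a * x)) = ψ (star x * x) := by
      rw [norm_mul' hq ha hx, ha1, one_mul]
    have n2 : ψ (star (x * a) * (x * a)) = ψ (star x * x) := by
      rw [norm_mul' hlS hx ha, ha1, mul_one]
    obtain ⟨ζ, hζ, hnul⟩ := unit_ratio h hax hxa (by rw [n1]; exact hn) (by rw [n1, n2])
    have hval : ψ x = ζ * ψ x := by
      have h1 := hinv l hl a ha ha1 x
      rw [mul_assoc, eq_left h hnul, mul_smul_comm, map_smul, smul_eq_mul, ← mul_assoc,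
        h.mulL ψ _ (sq_mem ha), ha1, one_mul] at h1
      exact h1.symm
    by_cases hζ1 : ζ = 1
    · exfalso
      apply hCm
      refine ⟨hc l hl, ?_⟩
      intro b hb b' hb'
      have p1 := prop h hx hb hn
      have p2 := prop h ha hb' (by rw [ha1]; exact one_ne_zero)
      set lam := ψ (star x * b) / ψ (star x * x) with hlam
      set mu := ψ (star a * b') / ψ (star a * a) with hmu
      have m1 : b - lam • x ∈ G.fib q := (G.fib q).sub_mem hb ((G.fib q).smul_mem _ hx)
      have m2 : b' - mu • a ∈ G.fib l := (G.fib l).sub_mem hb' ((G.fib l).smul_mem _ ha)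
      have q1 : Nul ψ (b * (b' - mu • a)) := nul_mul h p2 b
      have q2 : Nul ψ ((b - lam • x) * a) := nul_right hlS m1 ha p1
      have q3 : Nul ψ (b' * (b - lam • x)) := nul_mul h p1 b'
      have q4 : Nul ψ ((b' - mu • a) * x) := nul_right hq m2 hx p2
      rw [hζ1, one_smul] at hnul
      have q5 : Nul ψ (b * (b' - mu • a) + mu • ((b - lam • x) * a) +
          (mu * lam) • (x * a - a * x) + (-(lam • ((b' - mu • a) * x))) +
          (-(b' * (b - lam • x)))) :=
        nul_add h (nul_add h (nul_add h (nul_add h q1 (nul_smul h q2 mu))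
          (nul_smul h hnul _)) (nul_neg h (nul_smul h q4 lam))) (nul_neg h q3)
      have e : b * b' - b' * b = b * (b' - mu • a) + mu • ((b - lam • x) * a) +
          (mu * lam) • (x * a - a * x) + (-(lam • ((b' - mu • a) * x))) +
          (-(b' * (b - lam • x))) := by
        simp only [mul_sub, sub_mul, mul_smul_comm, smul_mul_assoc, smul_sub, smul_smul,
          mul_comm lam mu]
        abel
      rw [e]
      exact q5
    · have h2 : (1 - ζ) * ψ x = 0 := by
        rw [sub_mul, one_mul]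
        exact sub_eq_zero.2 hval
      rcases mul_eq_zero.1 h2 with h3 | h3
      · exact absurd (sub_eq_zero.1 h3).symm hζ1
      · exact h3

end

theorem van (hPF : S_PF) : S_VAN := by
  intro Q _ B _ G hG L _ ψ hL hinv q hD hor x hx
  have h := hPF Q B G hG
  by_cases hq : q ∈ G.St ψ
  · rcases hor with h1 | h1
    · exact absurd hq h1
    · exact van2 h hL hinv hq h1 hD hx
  · exact van1 h hq hx

theorem bes (hPF : S_PF) (hV : S_VAN) : S_BES := by
  intro Q _ B _ G hG L hT ψ hL hinv q hq hN l₀ hl₀ n hk x hx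
  have h := hPF Q B G hG
  have hxx : (ψ (star x * x)).re ≤ ‖x‖ ^ 2 := by
    refine (Complex.re_le_norm _).trans ((ψ.bound _).trans ?_)
    rw [CStarRing.norm_star_mul_self, sq]
  by_cases hn : ψ (star x * x) = 0
  · rw [nul_val h hn, norm_zero]
    simp
  have hdata : ∀ i : ℕ, ∃ w : B, w ∈ G.fib ((l₀⁻¹ * (q * l₀ * q⁻¹)) ^ (-(i : ℤ))) ∧
      ψ (star w * w) = 1 ∧ ‖ψ (star w * x)‖ = ‖ψ x‖ := by
    intro i
    have hli : l₀ ^ i ∈ L := L.pow_mem hl₀ i
    have hli' : q * l₀ ^ i * q⁻¹ ∈ L := hN _ hli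
    obtain ⟨a, ha, ha1⟩ := exists_unit (hL _ hli)
    obtain ⟨a', ha', ha1'⟩ := exists_unit (hL _ hli')
    refine ⟨star a' * a, ?_, ?_, ?_⟩
    · have h1 := G.mul_mem _ _ _ _ (G.star_mem _ _ ha') ha
      have e : (q * l₀ ^ i * q⁻¹)⁻¹ * l₀ ^ i = (l₀⁻¹ * (q * l₀ * q⁻¹)) ^ (-(i : ℤ)) := by
        have hcomm : Commute l₀⁻¹ (q * l₀ * q⁻¹) :=
          hT.1 _ (L.inv_mem hl₀) _ (hN _ hl₀)
        rw [zpow_neg, zpow_natCast, hcomm.mul_pow, inv_pow, conj_pow, mul_inv_rev ((l₀ ^ i)⁻¹),
          inv_inv]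
      rw [e] at h1
      exact h1
    · have h1 := norm_mul' (φ := ψ) (hL _ hli) (G.star_mem _ _ ha') ha
      rw [h1, star_star, star_unit h (hL _ hli') ha' ha1', ha1, mul_one]
    · have hax : a' * x ∈ G.fib (q * l₀ ^ i) := by
        have := G.mul_mem _ _ _ _ ha' hx
        rwa [inv_mul_cancel_right] at this
      have hxa : x * a ∈ G.fib (q * l₀ ^ i) := G.mul_mem _ _ _ _ hx ha
      have n1 : ψ (star (a' * x) * (a' * x)) = ψ (star x * x) := by
        rw [norm_mul' hq ha' hx, ha1', one_mul]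
      have n2 : ψ (star (x * a) * (x * a)) = ψ (star x * x) := by
        rw [norm_mul' (hL _ hli) hx ha, ha1, mul_one]
      obtain ⟨ζ, hζ, hnul⟩ := unit_ratio h hax hxa (by rw [n1]; exact hn) (by rw [n1, n2])
      have h1 := hinv _ hli a ha ha1 x
      rw [mul_assoc, eq_left h hnul, mul_smul_comm, map_smul, smul_eq_mul, ← mul_assoc] at h1
      have hζn : ‖ζ‖ = 1 := by
        have h2 := congrArg norm hζ
        rw [norm_mul, norm_star, norm_one] at h2
        have h3 : (‖ζ‖ - 1) * (‖ζ‖ + 1) = 0 := by linear_combination h2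
        rcases mul_eq_zero.1 h3 with h4 | h4
        · linarith
        · have := norm_nonneg ζ
          linarith
      rw [star_mul, star_star, ← h1, norm_mul, hζn, one_mul]
  choose w hw1 hw2 hw3 using hdata
  have horth : ∀ i ∈ Finset.range n, ∀ j ∈ Finset.range n, i ≠ j → ψ (star (w i) * w j) = 0 := by
    intro i hi j hj hij
    rw [Finset.mem_range] at hi hj
    have h1 := G.mul_mem _ _ _ _ (G.star_mem _ _ (hw1 i)) (hw1 j)
    set k₀ := l₀⁻¹ * (q * l₀ * q⁻¹) with hk₀
    have hk₀L : k₀ ∈ L := L.mul_mem (L.inv_mem hl₀) (hN _ hl₀)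
    have e : (k₀ ^ (-(i : ℤ)))⁻¹ * k₀ ^ (-(j : ℤ)) = k₀ ^ ((i : ℤ) - j) := by
      rw [← zpow_neg, neg_neg, ← zpow_add, sub_eq_add_neg]
    rw [e] at h1
    refine hV Q B G hG L hT.1 ψ hL hinv _ (hk _ ?_ ?_) (Or.inr ?_) _ h1
    · omega
    · rw [abs_le]; omega
    · intro l hl
      exact hT.1 _ (L.zpow_mem hk₀L _) _ hl
  set al : ℕ → ℂ := fun i => ψ (star (w i) * x) with hal
  set z : B := ∑ i ∈ Finset.range n, al i • w i with hz
  set S : ℝ := n * ‖ψ x‖ ^ 2 with hS
  have hsq : ∀ i, star (al i) * al i = ((‖ψ x‖ ^ 2 : ℝ) : ℂ) := by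
    intro i
    have h1 : star (al i) * al i = ((‖al i‖ ^ 2 : ℝ) : ℂ) := by
      have := Complex.conj_mul' (al i)
      rw [Complex.ofReal_pow]
      exact this
    rw [h1, hal]
    simp only
    rw [hw3 i]
  have hzstar : star z = ∑ i ∈ Finset.range n, star (al i) • star (w i) := by
    rw [hz, star_sum]
    apply Finset.sum_congr rfl
    intro i _
    rw [star_smul]
  have hzx : ψ (star z * x) = (S : ℂ) := by
    rw [hzstar, Finset.sum_mul, map_sum]
    have : ∀ i ∈ Finset.range n, ψ.toFun (star (al i) • star (w i) * x) =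
        ((‖ψ x‖ ^ 2 : ℝ) : ℂ) := by
      intro i _
      rw [smul_mul_assoc, map_smul, smul_eq_mul]
      exact hsq i
    rw [Finset.sum_congr rfl this, Finset.sum_const, Finset.card_range, nsmul_eq_mul, hS]
    push_cast
    ring
  have hzz : ψ (star z * z) = (S : ℂ) := by
    rw [hzstar, Finset.sum_mul, map_sum]
    have : ∀ i ∈ Finset.range n, ψ.toFun (star (al i) • star (w i) * z) =
        ((‖ψ x‖ ^ 2 : ℝ) : ℂ) := by
      intro i hi
      rw [smul_mul_assoc, map_smul, smul_eq_mul, hz, Finset.mul_sum, map_sum]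
      rw [Finset.sum_eq_single i]
      · rw [mul_smul_comm, map_smul, smul_eq_mul, hw2 i, mul_one]
        exact hsq i
      · intro j hj hji
        rw [mul_smul_comm, map_smul, smul_eq_mul, horth i hi j hj (Ne.symm hji), mul_zero]
      · intro hni
        exact absurd hi hni
    rw [Finset.sum_congr rfl this, Finset.sum_const, Finset.card_range, nsmul_eq_mul, hS]
    push_cast
    ring
  have hcs := h.cs ψ z x
  rw [hzx, hzz, Complex.ofReal_re] at hcs
  have hS0 : 0 ≤ S := by positivity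
  have hnS : ‖(S : ℂ)‖ = S := by
    rw [Complex.norm_real, Real.norm_of_nonneg hS0]
  rw [hnS] at hcs
  rcases eq_or_lt_of_le hS0 with h0 | h0
  · rw [← h0]
    positivity
  · have h1 : S * S ≤ S * (ψ (star x * x)).re := by
      rw [← sq]
      exact hcs
    exact (le_of_mul_le_mul_left h1 h0).trans hxx

end Pool.Agent.Helper89.Uct
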